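import Mathlib

namespace Pool.Agent.Results.MP_856808_pr.Tight

open MeasureTheory ProbabilityTheory Finset
open scoped ENNReal NNReal

/-- design points, numbered from 0 : `x n i = i / (n - 1)` for `i < n` -/
noncomputable def x (n i : ℕ) : ℝ := (i : ℝ) / ((n : ℝ) - 1)

/-- the cone `K_n` : consecutive slopes are nondecreasing (only the entries `i < n` matter) -/
def K (n : ℕ) : Set (ℕ → ℝ) :=
  {θ | ∀ i, i + 2 < n →
    (θ (i + 1) - θ i) / (x n (i + 1) - x n i) ≤ (θ (i + 2) - θ (i + 1)) / (x n (i + 2) - x n (i + 1))}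

/-- `θ` is a convex least squares fit of the data `Y 0, …, Y (n-1)` -/
def IsLSE (n : ℕ) (Y θ : ℕ → ℝ) : Prop :=
  θ ∈ K n ∧ ∀ φ ∈ K n, ∑ i ∈ range n, (Y i - θ i) ^ 2 ≤ ∑ i ∈ range n, (Y i - φ i) ^ 2

lemma mem_K {n : ℕ} (hn : 3 ≤ n) (θ : ℕ → ℝ) :
    θ ∈ K n ↔ ∀ i, i + 2 < n → θ (i + 1) - θ i ≤ θ (i + 2) - θ (i + 1) := by
  have h : (0 : ℝ) < (n : ℝ) - 1 := by
    have : (3 : ℝ) ≤ n := by exact_mod_cast hn
    linarith
  have e1 : ∀ i : ℕ, x n (i + 1) - x n i = 1 / ((n : ℝ) - 1) := by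
    intro i; unfold x; push_cast; ring
  have e2 : ∀ i : ℕ, x n (i + 2) - x n (i + 1) = 1 / ((n : ℝ) - 1) := fun i => e1 (i + 1)
  simp only [K, Set.mem_setOf_eq, e1, e2]
  refine forall_congr' fun i => forall_congr' fun _ => ?_
  exact div_le_div_iff_of_pos_right (by positivity)

lemma var_ineq {n : ℕ} {Y θ g : ℕ → ℝ} (h : IsLSE n Y θ) {t0 : ℝ} (ht0 : 0 < t0)
    (hg : ∀ t, 0 < t → t ≤ t0 → (fun i => θ i + t * g i) ∈ K n) :
    0 ≤ ∑ i ∈ range n, (θ i - Y i) * g i := by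
  set A := ∑ i ∈ range n, (θ i - Y i) * g i
  set B := ∑ i ∈ range n, g i ^ 2
  have hB : 0 ≤ B := sum_nonneg fun _ _ => sq_nonneg _
  have key : ∀ t, 0 < t → t ≤ t0 → 0 ≤ 2 * A + t * B := by
    intro t ht ht'
    have h1 := h.2 _ (hg t ht ht')
    have h2 : ∑ i ∈ range n, (Y i - (θ i + t * g i)) ^ 2
        = ∑ i ∈ range n, (Y i - θ i) ^ 2 + t * (2 * A + t * B) := by
      simp only [A, B, mul_sum, mul_add, ← sum_add_distrib]
      exact sum_congr rfl fun i _ => by ring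
    rw [h2] at h1
    have : 0 ≤ t * (2 * A + t * B) := by linarith
    exact nonneg_of_mul_nonneg_right this ht |> fun h => by
      by_contra hc; push_neg at hc; nlinarith
  by_contra hA
  push_neg at hA
  have := key (min t0 (-A / (B + 1))) (lt_min ht0 (div_pos (by linarith) (by linarith))) (min_le_left _ _)
  have h3 : min t0 (-A / (B + 1)) * B ≤ -A / (B + 1) * (B + 1) :=
    mul_le_mul (min_le_right _ _) (by linarith) hB (div_pos (by linarith) (by linarith)).le
  rw [div_mul_cancel₀ _ (by linarith)] at h3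
  linarith

/-- hinge function -/
noncomputable def hg (j i : ℕ) : ℝ := max ((j : ℝ) - i) 0

lemma hg_le {j i : ℕ} (h : i ≤ j) : hg j i = j - i := by
  have : (i : ℝ) ≤ j := by exact_mod_cast h
  exact max_eq_left (by linarith)

lemma hg_ge {j i : ℕ} (h : j ≤ i) : hg j i = 0 := by
  have : (j : ℝ) ≤ i := by exact_mod_cast h
  exact max_eq_right (by linarith)

lemma hg_second (j i : ℕ) :
    (hg j (i + 2) - hg j (i + 1)) - (hg j (i + 1) - hg j i) = if i + 1 = j then 1 else 0 := by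
  split_ifs with h
  · subst h
    rw [hg_ge (by omega), hg_ge le_rfl, hg_le (by omega)]; push_cast; ring
  · rcases lt_or_gt_of_ne h with h | h
    · rw [hg_le (by omega), hg_le (by omega), hg_le (by omega)]; push_cast; ring
    · rw [hg_ge (by omega), hg_ge (by omega), hg_ge (by omega)]; ring

lemma sum_hg {n j : ℕ} (hj : j ≤ n) (r : ℕ → ℝ) :
    ∑ i ∈ range n, r i * hg j i = ∑ i ∈ range j, r i * ((j : ℝ) - i) := by
  rw [← sum_subset (range_mono hj)]
  · exact sum_congr rfl fun i hi => by rw [hg_le (mem_range.1 hi).le]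
  · intro i _ hi
    rw [hg_ge (by simpa using hi), mul_zero]

lemma sum_tri (r : ℕ → ℝ) (k : ℕ) :
    ∑ i ∈ range k, r i * ((k : ℝ) - i) = ∑ j ∈ range k, ∑ i ∈ range (j + 1), r i := by
  induction k with
  | zero => simp
  | succ k ih =>
    rw [sum_range_succ (fun j => ∑ i ∈ range (j + 1), r i), ← ih, sum_range_succ, sum_range_succ r,
      ← add_assoc, ← sum_add_distrib]
    push_cast
    congr 1
    · exact sum_congr rfl fun i _ => by ring
    · ring

lemma lin1 (a b : ℝ) (k : ℕ) : ∑ i ∈ range k, (a + b * i) = a * k + b * (k * (k - 1) / 2) := by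
  induction k with
  | zero => simp
  | succ k ih => rw [sum_range_succ, ih]; push_cast; ring

lemma lin2 (a b : ℝ) (k : ℕ) : ∑ j ∈ range k, ∑ i ∈ range (j + 1), (a + b * i)
    = a * (k * (k + 1) / 2) + b * ((k - 1) * k * (k + 1) / 6) := by
  induction k with
  | zero => simp
  | succ k ih => rw [sum_range_succ, ih, lin1]; push_cast; ring

lemma lin3 (C : ℝ) (k : ℕ) : ∑ j ∈ range k, C * ((j + 1 : ℕ) : ℝ) = C * (k * (k + 1) / 2) := by
  induction k with
  | zero => simp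
  | succ k ih => rw [sum_range_succ, ih]; push_cast; ring

theorem det_bound {n : ℕ} (hn : 3 ≤ n) {Y θ : ℕ → ℝ} (h : IsLSE n Y θ) {C : ℝ}
    (hC : ∀ j, j < n → |∑ i ∈ range (j + 1), Y i| ≤ C * ((j + 1 : ℕ) : ℝ)) : |θ 0| ≤ 5 * C := by
  have hK := (mem_K hn θ).1 h.1
  have hpos : ∀ j, j ≤ n → 0 ≤ ∑ i ∈ range j, (θ i - Y i) * ((j : ℝ) - i) := by
    intro j hj
    rw [← sum_hg hj]
    refine var_ineq h one_pos fun t ht _ => (mem_K hn _).2 fun i hi => ?_
    have h1 := hK i hi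
    have h2 := hg_second j i
    have h3 : 0 ≤ t * ((hg j (i + 2) - hg j (i + 1)) - (hg j (i + 1) - hg j i)) := by
      rw [h2]; split_ifs <;> positivity
    nlinarith
  have hex : ∃ m, m + 2 = n ∨ θ (m + 1) - θ m < θ (m + 2) - θ (m + 1) := ⟨n - 2, Or.inl (by omega)⟩
  classical
  set m := Nat.find hex with hm
  have hmspec := Nat.find_spec hex
  rw [← hm] at hmspec
  have hmle : m + 2 ≤ n := by
    have : m ≤ n - 2 := Nat.find_min' hex (Or.inl (by omega))
    omega
  have hD : ∀ i, i ≤ m → θ (i + 1) - θ i = θ 1 - θ 0 := by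
    intro i hi
    induction i with
    | zero => rfl
    | succ i ih =>
      have h1 := Nat.find_min hex (show i < m by omega)
      push_neg at h1
      have h2 := hK i (by omega)
      rw [← ih (by omega)]
      linarith [h1.2]
  have hlin : ∀ i, i ≤ m + 1 → θ i = θ 0 + (θ 1 - θ 0) * i := by
    intro i hi
    induction i with
    | zero => simp
    | succ i ih =>
      have := hD i (by omega)
      have := ih (by omega)
      push_cast; linarith
  have hneg : ∑ i ∈ range (m + 1), (θ i - Y i) * (((m + 1 : ℕ) : ℝ) - i) ≤ 0 := by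
    rw [← sum_hg (show m + 1 ≤ n by omega)]
    have : 0 ≤ ∑ i ∈ range n, (θ i - Y i) * (-hg (m + 1) i) := by
      rcases hmspec with h1 | h1
      · refine var_ineq h one_pos fun t ht _ => (mem_K hn _).2 fun i hi => ?_
        have h1 := hK i hi
        have h2 := hg_second (m + 1) i
        rw [if_neg (by omega)] at h2
        have h3 : t * ((hg (m + 1) (i + 2) - hg (m + 1) (i + 1)) - (hg (m + 1) (i + 1) - hg (m + 1) i)) = 0 := by
          rw [h2, mul_zero]
        nlinarith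
      · refine var_ineq h (sub_pos.2 h1) fun t ht ht' => (mem_K hn _).2 fun i hi => ?_
        have h4 := hK i hi
        have h2 := hg_second (m + 1) i
        by_cases he : i = m
        · subst he
          rw [if_pos rfl] at h2
          have h3 : t * ((hg (m + 1) (m + 2) - hg (m + 1) (m + 1)) - (hg (m + 1) (m + 1) - hg (m + 1) m)) = t := by
            rw [h2, mul_one]
          nlinarith
        · rw [if_neg (by omega)] at h2
          have h3 : t * ((hg (m + 1) (i + 2) - hg (m + 1) (i + 1)) - (hg (m + 1) (i + 1) - hg (m + 1) i)) = 0 := by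
            rw [h2, mul_zero]
          nlinarith
    simp only [mul_neg, sum_neg_distrib] at this
    linarith
  set a := θ 0
  set b := θ 1 - θ 0
  have h0 := hpos 1 (by omega)
  have hC0 := hC 0 (by omega)
  simp only [range_one, sum_singleton, zero_add, Nat.cast_one, Nat.cast_zero, sub_zero, mul_one] at h0 hC0
  have hlow : -C ≤ a := by have := (abs_le.1 hC0).1; linarith
  have hC' : 0 ≤ C := (abs_nonneg _).trans hC0
  have h1 := hpos (m + 2) hmle
  rw [sum_tri] at h1 hneg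
  rw [sum_range_succ _ (m + 1)] at h1
  have h2 : 0 ≤ ∑ i ∈ range (m + 1 + 1), (θ i - Y i) := by linarith
  have hs : ∀ j, j ≤ m + 1 → ∑ i ∈ range (j + 1), (θ i - Y i)
      = ∑ i ∈ range (j + 1), (a + b * i) - ∑ i ∈ range (j + 1), Y i := by
    intro j hj
    rw [← sum_sub_distrib]
    exact sum_congr rfl fun i hi => by rw [hlin i (by have := mem_range.1 hi; omega)]
  rw [hs _ le_rfl, lin1] at h2
  have h3 := (abs_le.1 (hC (m + 1) (by omega))).1
  rw [sum_congr rfl fun j hj => hs j (by have := mem_range.1 hj; omega), sum_sub_distrib, lin2] at hneg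
  have h4 : ∑ j ∈ range (m + 1), ∑ i ∈ range (j + 1), Y i ≤ ∑ j ∈ range (m + 1), C * ((j + 1 : ℕ) : ℝ) :=
    sum_le_sum fun j hj => (abs_le.1 (hC j (by have := mem_range.1 hj; omega))).2
  rw [lin3] at h4
  push_cast at h2 h3 h4 hneg
  have hm0 : (0 : ℝ) ≤ m := Nat.cast_nonneg m
  have e1 : a + b * m / 3 ≤ C := by
    have : (a + b * m / 3 - C) * ((m + 1) * (m + 2) / 2) ≤ 0 := by nlinarith
    have hp : (0 : ℝ) < (m + 1) * (m + 2) / 2 := by positivity
    by_contra hc; push_neg at hc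
    nlinarith
  have e2 : -C ≤ a + b * (m + 1) / 2 := by
    have : 0 ≤ (a + b * (m + 1) / 2 + C) * (m + 2) := by nlinarith
    have hp : (0 : ℝ) < m + 2 := by positivity
    by_contra hc; push_neg at hc
    nlinarith
  have e3 : a ≤ 5 * C := by
    rcases le_total 0 b with hb | hb
    · nlinarith
    · nlinarith
  exact abs_le.2 ⟨by linarith, e3⟩

lemma tail {Ω : Type} [MeasurableSpace Ω] (P : Measure Ω) [IsProbabilityMeasure P] (v : ℝ≥0)
    (hv : 0 < v) (ε : ℕ → Ω → ℝ) (hind : iIndepFun ε P) (hlaw : ∀ i, HasLaw (ε i) (gaussianReal 0 v) P)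
    (L : ℝ) (hL : 0 ≤ L) (j : ℕ) :
    P.real {ω | L * ((j + 1 : ℕ) : ℝ) < |∑ i ∈ range (j + 1), ε i ω|}
      ≤ 2 * Real.exp (-L ^ 2 / (2 * v)) ^ (j + 1) := by
  have hsub : ∀ i, HasSubgaussianMGF (ε i) v P := by
    intro i
    have : HasSubgaussianMGF id v (gaussianReal 0 v) :=
      ⟨fun t => integrable_exp_mul_gaussianReal t, fun t => by rw [mgf_id_gaussianReal]; simp⟩
    rw [← (hlaw i).map_eq] at this
    exact HasSubgaussianMGF.of_map (X := id) (Y := ε i) (hlaw i).aemeasurable this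
  have hS := HasSubgaussianMGF.sum_of_iIndepFun (s := range (j + 1)) hind fun i _ => hsub i
  have hp : (0 : ℝ) ≤ L * ((j + 1 : ℕ) : ℝ) := by positivity
  have h1 := hS.measure_ge_le hp
  have h2 := hS.neg.measure_ge_le hp
  have e : Real.exp (-(L * ((j + 1 : ℕ) : ℝ)) ^ 2 / (2 * ((∑ i ∈ range (j + 1), v : ℝ≥0) : ℝ)))
      = Real.exp (-L ^ 2 / (2 * v)) ^ (j + 1) := by
    rw [← Real.exp_nat_mul]
    congr 1
    have : (0 : ℝ) < v := hv
    simp only [sum_const, card_range, nsmul_eq_mul]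
    push_cast
    field_simp
  rw [e] at h1 h2
  calc _ ≤ P.real ({ω | L * ((j + 1 : ℕ) : ℝ) ≤ ∑ i ∈ range (j + 1), ε i ω} ∪
        {ω | L * ((j + 1 : ℕ) : ℝ) ≤ (-fun ω => ∑ i ∈ range (j + 1), ε i ω) ω}) := by
        refine measureReal_mono (fun ω hω => ?_)
        simp only [Set.mem_setOf_eq, Set.mem_union, Pi.neg_apply] at hω ⊢
        rcases lt_abs.1 hω with h | h
        · exact Or.inl h.le
        · exact Or.inr h.le
    _ ≤ _ := (measureReal_union_le _ _).trans (by linarith)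

theorem result (f : ℝ → ℝ) (hf : ContinuousOn f (Set.Icc 0 1)) (_hconv : ConvexOn ℝ (Set.Icc 0 1) f)
    (σ : ℝ≥0) (hσ : 0 < σ)
    (Ω : Type) [MeasurableSpace Ω] (P : Measure Ω) [IsProbabilityMeasure P]
    (ε : ℕ → Ω → ℝ) (hind : iIndepFun ε P) (hlaw : ∀ i, HasLaw (ε i) (gaussianReal 0 (σ ^ 2)) P)
    (θ : ℕ → Ω → ℕ → ℝ)
    (hθ : ∀ n, 3 ≤ n → ∀ ω, IsLSE n (fun i => f (x n i) + ε i ω) (θ n ω))
    (η : ℝ≥0∞) (hη : 0 < η) :
    ∃ M : ℝ, ⨆ (n : ℕ) (_ : 3 ≤ n), P {ω | M < |θ n ω 0|} < η := by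
  obtain ⟨B, hB⟩ := isCompact_Icc.exists_bound_of_continuousOn hf
  have hv : 0 < σ ^ 2 := by positivity
  have hv' : (0 : ℝ) < ((σ ^ 2 : ℝ≥0) : ℝ) := hv
  obtain ⟨δ, hδ0, hδ⟩ : ∃ δ : ℝ, 0 < δ ∧ ENNReal.ofReal δ < η := by
    obtain ⟨r, hr0, hr⟩ := ENNReal.lt_iff_exists_real_btwn.1 hη
    exact ⟨r, by simpa using hr.1, hr.2⟩
  obtain ⟨L, hL0, hL⟩ : ∃ L : ℝ, 0 ≤ L ∧
      Real.exp (-L ^ 2 / (2 * ((σ ^ 2 : ℝ≥0) : ℝ))) ≤ min (1 / 2) (δ / 4) := by
    set q := min (1 / 2 : ℝ) (δ / 4)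
    have hq : 0 < q := lt_min (by norm_num) (by linarith)
    have hq1 : Real.log q ≤ 0 := Real.log_nonpos hq.le ((min_le_left _ _).trans (by norm_num))
    refine ⟨√(2 * ((σ ^ 2 : ℝ≥0) : ℝ) * (-Real.log q)), Real.sqrt_nonneg _, ?_⟩
    rw [Real.sq_sqrt (mul_nonneg (by positivity) (by linarith))]
    have : -(2 * ((σ ^ 2 : ℝ≥0) : ℝ) * (-Real.log q)) / (2 * ((σ ^ 2 : ℝ≥0) : ℝ)) = Real.log q := by
      field_simp
    rw [this, Real.exp_log hq]
  set q := Real.exp (-L ^ 2 / (2 * ((σ ^ 2 : ℝ≥0) : ℝ)))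
  have hq0 : 0 ≤ q := (Real.exp_pos _).le
  have hq1 : q ≤ 1 / 2 := hL.trans (min_le_left _ _)
  have hq2 : q ≤ δ / 4 := hL.trans (min_le_right _ _)
  refine ⟨5 * (B + L), lt_of_le_of_lt (iSup₂_le fun n hn => ?_) hδ⟩
  have hsub : {ω | 5 * (B + L) < |θ n ω 0|} ⊆
      ⋃ j ∈ range n, {ω | L * ((j + 1 : ℕ) : ℝ) < |∑ i ∈ range (j + 1), ε i ω|} := by
    intro ω hω
    by_contra hc
    simp only [Set.mem_iUnion, Set.mem_setOf_eq, not_exists, not_lt, mem_range] at hc hω
    refine absurd hω (not_lt.2 (det_bound hn (hθ n hn ω) fun j hj => ?_))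
    rw [sum_add_distrib]
    refine (abs_add_le _ _).trans ?_
    have h1 : |∑ i ∈ range (j + 1), f (x n i)| ≤ B * ((j + 1 : ℕ) : ℝ) := by
      refine (abs_sum_le_sum_abs _ _).trans ?_
      have : ∀ i ∈ range (j + 1), |f (x n i)| ≤ B := by
        intro i hi
        have hi' : i + 1 ≤ n := by have := mem_range.1 hi; omega
        have h3 : (3 : ℝ) ≤ n := by exact_mod_cast hn
        have h4 : (i : ℝ) + 1 ≤ n := by exact_mod_cast hi'
        refine hB _ ⟨div_nonneg (Nat.cast_nonneg _) (by linarith), ?_⟩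
        unfold x
        rw [div_le_one (by linarith)]; linarith
      refine (sum_le_card_nsmul _ _ _ this).trans ?_
      rw [card_range, nsmul_eq_mul, mul_comm]
    have := hc j hj
    linarith
  have hgeo : ∀ m : ℕ, ∑ j ∈ range m, 2 * q ^ (j + 1) ≤ 4 * q - 4 * q ^ (m + 1) := by
    intro m
    induction m with
    | zero => simp
    | succ m ih =>
      rw [sum_range_succ]
      have : 0 ≤ q ^ (m + 1) := by positivity
      rw [pow_succ q (m + 1)]
      nlinarith
  rw [← ofReal_measureReal]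
  refine ENNReal.ofReal_le_ofReal ?_
  calc _ ≤ P.real (⋃ j ∈ range n, {ω | L * ((j + 1 : ℕ) : ℝ) < |∑ i ∈ range (j + 1), ε i ω|}) :=
        measureReal_mono hsub (measure_ne_top _ _)
    _ ≤ ∑ j ∈ range n, P.real {ω | L * ((j + 1 : ℕ) : ℝ) < |∑ i ∈ range (j + 1), ε i ω|} :=
        measureReal_biUnion_finset_le _ _
    _ ≤ ∑ j ∈ range n, 2 * q ^ (j + 1) := sum_le_sum fun j _ => tail P _ hv ε hind hlaw L hL0 j
    _ ≤ δ := by
        have := hgeo n
        have : 0 ≤ q ^ (n + 1) := by positivity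
        linarith

end Pool.Agent.Results.MP_856808_pr.Tight
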